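import Mathlib

/-!
# The analytic large sieve inequality (Gallagher's method)
-/

open Finset MeasureTheory intervalIntegral

namespace Pool.Agent.Lib.MP_cb27ba_nt.H71

/-- Trigonometric polynomial. -/
noncomputable def F (c : ℤ → ℂ) (S : Finset ℤ) (x : ℝ) : ℂ :=
  ∑ n ∈ S, c n * Complex.exp (2 * Real.pi * Complex.I * n * x)

lemma hasDerivAt_F (c : ℤ → ℂ) (S : Finset ℤ) (x : ℝ) :
    HasDerivAt (F c S) (F (fun n => c n * (2 * Real.pi * Complex.I * n)) S x) x := by
  unfold F
  have h : HasDerivAt (fun y : ℝ => ∑ n ∈ S, c n * Complex.exp (2 * Real.pi * Complex.I * n * y))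
      (∑ n ∈ S, c n * (2 * Real.pi * Complex.I * n) *
        Complex.exp (2 * Real.pi * Complex.I * n * x)) x := by
    apply HasDerivAt.fun_sum
    intro n _
    have h1 : HasDerivAt (fun y : ℝ => (2 * Real.pi * Complex.I * n * (y : ℂ)))
        (2 * Real.pi * Complex.I * n) x := by
      have := (Complex.ofRealCLM.hasDerivAt (x := x)).const_mul (2 * Real.pi * Complex.I * (n : ℂ))
      simpa using this
    have h2 := (h1.cexp).const_mul (c n)
    exact h2.congr_deriv (by ring)
  exact h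

lemma continuous_F (c : ℤ → ℂ) (S : Finset ℤ) : Continuous (F c S) :=
  continuous_iff_continuousAt.mpr (fun x => (hasDerivAt_F c S x).continuousAt)

lemma integral_exp_int (k : ℤ) :
    ∫ x in (0 : ℝ)..1, Complex.exp (2 * Real.pi * Complex.I * k * x) = if k = 0 then 1 else 0 := by
  split_ifs with h
  · subst h; simp
  · have hc : (2 * Real.pi * Complex.I * k : ℂ) ≠ 0 := by
      have : (k : ℂ) ≠ 0 := by exact_mod_cast h
      have hpi : (Real.pi : ℂ) ≠ 0 := by exact_mod_cast Real.pi_ne_zero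
      simp [this, hpi]
    rw [integral_exp_mul_complex hc]
    have h1 : Complex.exp (2 * Real.pi * Complex.I * k * ((1 : ℝ) : ℂ)) = 1 := by
      rw [Complex.exp_eq_one_iff]
      exact ⟨k, by push_cast; ring⟩
    rw [h1]
    simp

lemma parsevalF (c : ℤ → ℂ) (S : Finset ℤ) :
    ∫ x in (0 : ℝ)..1, ‖F c S x‖ ^ 2 = ∑ n ∈ S, ‖c n‖ ^ 2 := by
  have key : ((∫ x in (0 : ℝ)..1, ‖F c S x‖ ^ 2 : ℝ) : ℂ) = ((∑ n ∈ S, ‖c n‖ ^ 2 : ℝ) : ℂ) := by
    rw [← intervalIntegral.integral_ofReal]
    have h1 : ∀ x : ℝ, (((‖F c S x‖ ^ 2 : ℝ)) : ℂ)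
        = ∑ n ∈ S, ∑ m ∈ S, c n * (starRingEnd ℂ) (c m) *
          Complex.exp (2 * Real.pi * Complex.I * ((n - m : ℤ) : ℂ) * x) := by
      intro x
      push_cast
      rw [← Complex.mul_conj']
      unfold F
      rw [map_sum, Finset.sum_mul_sum]
      refine Finset.sum_congr rfl (fun n _ => Finset.sum_congr rfl (fun m _ => ?_))
      rw [map_mul, ← Complex.exp_conj]
      have : (starRingEnd ℂ) (2 * Real.pi * Complex.I * m * x)
          = -(2 * Real.pi * Complex.I * m * x) := by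
        have h2 : (starRingEnd ℂ) 2 = 2 := map_ofNat _ 2
        simp [Complex.conj_ofReal, h2]
      rw [this, Complex.exp_neg]
      have h2 : Complex.exp (2 * Real.pi * Complex.I * ((n : ℂ) - m) * x)
          = Complex.exp (2 * Real.pi * Complex.I * n * x) *
            (Complex.exp (2 * Real.pi * Complex.I * m * x))⁻¹ := by
        rw [← Complex.exp_neg, ← Complex.exp_add]
        congr 1
        ring
      rw [h2]
      ring
    simp_rw [h1]
    rw [intervalIntegral.integral_finsetSum]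
    · have h3 : ∀ n ∈ S, ∫ x in (0 : ℝ)..1, ∑ m ∈ S, c n * (starRingEnd ℂ) (c m) *
          Complex.exp (2 * Real.pi * Complex.I * ((n - m : ℤ) : ℂ) * x)
          = ((‖c n‖ : ℂ)) ^ 2 := by
        intro n hn
        rw [intervalIntegral.integral_finsetSum]
        · rw [Finset.sum_eq_single n]
          · rw [intervalIntegral.integral_const_mul, integral_exp_int]
            simp [Complex.mul_conj']
          · intro m _ hmn
            rw [intervalIntegral.integral_const_mul, integral_exp_int,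
              if_neg (sub_ne_zero.mpr hmn.symm), mul_zero]
          · intro h; exact absurd hn h
        · intro m _
          apply Continuous.intervalIntegrable
          fun_prop
      rw [Finset.sum_congr rfl h3]
      push_cast
      rfl
    · intro n _
      apply Continuous.intervalIntegrable
      fun_prop
  exact_mod_cast key

/-- Gallagher's local inequality. -/
lemma gallagher_local {g g' : ℝ → ℂ} (hg : ∀ x, HasDerivAt g (g' x) x) (hc : Continuous g')
    (α : ℝ) {δ : ℝ} (hδ : 0 < δ) :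
    δ * ‖g α‖ ≤ ∫ x in (α - δ / 2)..(α + δ / 2), (‖g x‖ + δ * ‖g' x‖) := by
  have hgc : Continuous g := continuous_iff_continuousAt.mpr (fun x => (hg x).continuousAt)
  set J : ℝ := ∫ x in (α - δ / 2)..(α + δ / 2), ‖g' x‖ with hJ
  have hii : ∀ a b : ℝ, IntervalIntegrable (fun x => ‖g' x‖) volume a b := fun a b =>
    hc.norm.intervalIntegrable a b
  have hpt : ∀ x ∈ Set.Icc (α - δ / 2) (α + δ / 2), ‖g α‖ ≤ ‖g x‖ + J := by
    intro x hx
    have h1 : ‖g α - g x‖ ≤ J := by
      have h2 : ∫ y in x..α, g' y = g α - g x :=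
        intervalIntegral.integral_eq_sub_of_hasDerivAt (fun y _ => hg y)
          (hc.intervalIntegrable _ _)
      rw [← h2]
      rcases le_total x α with h | h
      · refine (intervalIntegral.norm_integral_le_integral_norm h).trans ?_
        exact intervalIntegral.integral_mono_interval hx.1 h (by linarith)
          (Filter.Eventually.of_forall (fun y => norm_nonneg _)) (hii _ _)
      · rw [intervalIntegral.integral_symm, norm_neg]
        refine (intervalIntegral.norm_integral_le_integral_norm h).trans ?_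
        exact intervalIntegral.integral_mono_interval (by linarith) h hx.2
          (Filter.Eventually.of_forall (fun y => norm_nonneg _)) (hii _ _)
    have h3 : ‖g α‖ ≤ ‖g x‖ + ‖g α - g x‖ := by
      have := norm_add_le (g x) (g α - g x)
      simpa using this
    linarith
  have h4 : ∫ _x in (α - δ / 2)..(α + δ / 2), ‖g α‖
      ≤ ∫ x in (α - δ / 2)..(α + δ / 2), (‖g x‖ + J) := by
    refine intervalIntegral.integral_mono_on (by linarith) (by simp) ?_ hpt
    exact (hgc.norm.add continuous_const).intervalIntegrable _ _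
  rw [intervalIntegral.integral_const, smul_eq_mul] at h4
  rw [intervalIntegral.integral_add (hgc.norm.intervalIntegrable _ _) (by simp),
    intervalIntegral.integral_const, smul_eq_mul] at h4
  rw [intervalIntegral.integral_add (hgc.norm.intervalIntegrable _ _)
    ((hc.norm.const_mul δ).intervalIntegrable _ _), intervalIntegral.integral_const_mul]
  have e : α + δ / 2 - (α - δ / 2) = δ := by ring
  rw [e] at h4
  exact h4

/-- Disjoint intervals around separated points. -/
lemma sum_separated {ι : Type*} (R : Finset ι) (α : ι → ℝ) {δ : ℝ} (hδ : 0 < δ)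
    (hsep : ∀ r ∈ R, ∀ s ∈ R, r ≠ s → δ ≤ |α r - α s|)
    (h01 : ∀ r ∈ R, δ / 2 ≤ α r ∧ α r + δ / 2 ≤ 1) {h : ℝ → ℝ} (hc : Continuous h)
    (h0 : ∀ x, 0 ≤ h x) :
    ∑ r ∈ R, ∫ x in (α r - δ / 2)..(α r + δ / 2), h x ≤ ∫ x in (0 : ℝ)..1, h x := by
  have e1 : ∀ r ∈ R, ∫ x in (α r - δ / 2)..(α r + δ / 2), h x
      = ∫ x in Set.Ioc (α r - δ / 2) (α r + δ / 2), h x := by
    intro r _
    rw [intervalIntegral.integral_of_le (by linarith)]
  rw [Finset.sum_congr rfl e1, intervalIntegral.integral_of_le zero_le_one,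
    ← integral_biUnion_finset R (fun r _ => measurableSet_Ioc)]
  · apply setIntegral_mono_set
    · exact (hc.integrableOn_Icc (a := 0) (b := 1)).mono_set Set.Ioc_subset_Icc_self
    · exact Filter.Eventually.of_forall (fun x => h0 x)
    · apply LE.le.eventuallyLE
      intro x hx
      simp only [Set.mem_iUnion] at hx
      obtain ⟨r, hr, hx⟩ := hx
      have := h01 r hr
      exact ⟨by linarith [hx.1], by linarith [hx.2]⟩
  · intro r hr s hs hrs
    have h1 := hsep r hr s hs hrs
    rw [Function.onFun, Set.disjoint_left]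
    intro x hx hx'
    rcases abs_cases (α r - α s) with ⟨h2, _⟩ | ⟨h2, _⟩
    · linarith [hx.1, hx.2, hx'.1, hx'.2]
    · linarith [hx.1, hx.2, hx'.1, hx'.2]
  · intro r _
    exact (hc.integrableOn_Icc).mono_set Set.Ioc_subset_Icc_self

/-- **The large sieve inequality** (with a slightly weaker constant). -/
theorem large_sieve (c : ℤ → ℂ) (S : Finset ℤ) {N : ℝ} (hN : 0 < N)
    (hS : ∀ n ∈ S, |(n : ℝ)| ≤ N) {ι : Type*} (R : Finset ι) (α : ι → ℝ) {δ : ℝ} (hδ : 0 < δ)
    (hsep : ∀ r ∈ R, ∀ s ∈ R, r ≠ s → δ ≤ |α r - α s|)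
    (h01 : ∀ r ∈ R, δ / 2 ≤ α r ∧ α r + δ / 2 ≤ 1) :
    ∑ r ∈ R, ‖F c S (α r)‖ ^ 2 ≤ (1 / δ + 4 * Real.pi * N) * ∑ n ∈ S, ‖c n‖ ^ 2 := by
  set c' : ℤ → ℂ := fun n => c n * (2 * Real.pi * Complex.I * n) with hc'
  have hF := continuous_F c S
  have hF' := continuous_F c' S
  have hg : ∀ x : ℝ, HasDerivAt (fun y => F c S y * F c S y)
      (F c' S x * F c S x + F c S x * F c' S x) x := fun x =>
    (hasDerivAt_F c S x).mul (hasDerivAt_F c S x)
  have hgc : Continuous (fun x => F c' S x * F c S x + F c S x * F c' S x) := by fun_prop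
  have h1 : ∀ r ∈ R, δ * ‖F c S (α r)‖ ^ 2 ≤ ∫ x in (α r - δ / 2)..(α r + δ / 2),
      (‖F c S x * F c S x‖ + δ * ‖F c' S x * F c S x + F c S x * F c' S x‖) := by
    intro r _
    have := gallagher_local hg hgc (α r) hδ
    rw [norm_mul, ← sq] at this
    exact this
  have h2 : Continuous (fun x : ℝ =>
      ‖F c S x * F c S x‖ + δ * ‖F c' S x * F c S x + F c S x * F c' S x‖) := by fun_prop
  have h3 : δ * ∑ r ∈ R, ‖F c S (α r)‖ ^ 2 ≤ ∫ x in (0 : ℝ)..1,
      (‖F c S x * F c S x‖ + δ * ‖F c' S x * F c S x + F c S x * F c' S x‖) := by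
    rw [Finset.mul_sum]
    exact (Finset.sum_le_sum h1).trans (sum_separated R α hδ hsep h01 h2
      (fun x => by positivity))
  set l : ℝ := 2 * Real.pi * N with hl
  have hl0 : 0 < l := by rw [hl]; positivity
  have h4 : ∫ x in (0 : ℝ)..1,
      (‖F c S x * F c S x‖ + δ * ‖F c' S x * F c S x + F c S x * F c' S x‖)
      ≤ ∫ x in (0 : ℝ)..1, ((1 + δ * l) * ‖F c S x‖ ^ 2 + δ / l * ‖F c' S x‖ ^ 2) := by
    refine intervalIntegral.integral_mono_on zero_le_one (h2.intervalIntegrable _ _) ?_ ?_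
    · apply Continuous.intervalIntegrable
      fun_prop
    · intro x _
      have h5 : ‖F c' S x * F c S x + F c S x * F c' S x‖ = 2 * (‖F c S x‖ * ‖F c' S x‖) := by
        have : F c' S x * F c S x + F c S x * F c' S x = 2 * (F c S x * F c' S x) := by ring
        rw [this, norm_mul, norm_mul]
        norm_num
      rw [h5, norm_mul, ← sq]
      have h6 : 2 * (‖F c S x‖ * ‖F c' S x‖) ≤ l * ‖F c S x‖ ^ 2 + ‖F c' S x‖ ^ 2 / l := by
        have h7 : 0 ≤ (l * ‖F c S x‖ - ‖F c' S x‖) ^ 2 / l := by positivity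
        have h8 : (l * ‖F c S x‖ - ‖F c' S x‖) ^ 2 / l
            = l * ‖F c S x‖ ^ 2 + ‖F c' S x‖ ^ 2 / l - 2 * (‖F c S x‖ * ‖F c' S x‖) := by
          field_simp
          ring
        linarith
      have h9 := mul_le_mul_of_nonneg_left h6 hδ.le
      calc ‖F c S x‖ ^ 2 + δ * (2 * (‖F c S x‖ * ‖F c' S x‖))
          ≤ ‖F c S x‖ ^ 2 + δ * (l * ‖F c S x‖ ^ 2 + ‖F c' S x‖ ^ 2 / l) := by linarith
        _ = (1 + δ * l) * ‖F c S x‖ ^ 2 + δ / l * ‖F c' S x‖ ^ 2 := by ring
  have h5 : ∫ x in (0 : ℝ)..1, ((1 + δ * l) * ‖F c S x‖ ^ 2 + δ / l * ‖F c' S x‖ ^ 2)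
      = (1 + δ * l) * ∑ n ∈ S, ‖c n‖ ^ 2 + δ / l * ∑ n ∈ S, ‖c' n‖ ^ 2 := by
    rw [intervalIntegral.integral_add, intervalIntegral.integral_const_mul,
      intervalIntegral.integral_const_mul, parsevalF, parsevalF]
    · apply Continuous.intervalIntegrable
      fun_prop
    · apply Continuous.intervalIntegrable
      fun_prop
  have h6 : ∑ n ∈ S, ‖c' n‖ ^ 2 ≤ l ^ 2 * ∑ n ∈ S, ‖c n‖ ^ 2 := by
    rw [Finset.mul_sum]
    refine Finset.sum_le_sum (fun n hn => ?_)
    have h7 : ‖c' n‖ = ‖c n‖ * (2 * Real.pi * |(n : ℝ)|) := by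
      simp only [hc', norm_mul, Complex.norm_real, Complex.norm_I, Complex.norm_intCast,
        Real.norm_eq_abs, abs_of_pos Real.pi_pos]
      norm_num
    rw [h7, mul_pow, mul_comm]
    refine mul_le_mul_of_nonneg_right ?_ (by positivity)
    refine pow_le_pow_left₀ (by positivity) ?_ 2
    rw [hl]
    exact mul_le_mul_of_nonneg_left (hS n hn) (by positivity)
  set T₀ : ℝ := ∑ n ∈ S, ‖c n‖ ^ 2 with hT
  have hT0 : 0 ≤ T₀ := by rw [hT]; positivity
  have h7 : δ * ∑ r ∈ R, ‖F c S (α r)‖ ^ 2 ≤ δ * ((1 / δ + 4 * Real.pi * N) * T₀) := by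
    calc δ * ∑ r ∈ R, ‖F c S (α r)‖ ^ 2
        ≤ (1 + δ * l) * T₀ + δ / l * ∑ n ∈ S, ‖c' n‖ ^ 2 := by
          rw [← h5]; exact h3.trans h4
      _ ≤ (1 + δ * l) * T₀ + δ / l * (l ^ 2 * T₀) := by
          have := mul_le_mul_of_nonneg_left h6 (show 0 ≤ δ / l by positivity)
          linarith
      _ = δ * ((1 / δ + 4 * Real.pi * N) * T₀) := by
          rw [hl]
          field_simp
          ring
  exact le_of_mul_le_mul_left h7 hδ

end Pool.Agent.Lib.MP_cb27ba_nt.H71
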