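import Mathlib

/-!
# A Pólya–Vinogradov inequality for all nonprincipal characters

For a nonprincipal (not necessarily primitive) Dirichlet character `χ` modulo `q` and every
interval `[M, M + K)` of integers,
`‖∑ χ (M + i)‖ ≤ √q · τ(q) · H_q`, where `H_q` is the harmonic number.
-/

open Finset ZMod

namespace Pool.Agent.Lib.MP_cb27ba_nt.H71

noncomputable section

variable {q : ℕ} [NeZero q]

/-- Gauss-type sum of a Dirichlet character. -/
def G (χ : DirichletCharacter ℂ q) (k : ZMod q) : ℂ := ∑ x, χ x * stdAddChar (k * x)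

lemma G_unit_mul (χ : DirichletCharacter ℂ q) (u : (ZMod q)ˣ) (k : ZMod q) :
    G χ (u * k) = χ (u⁻¹ : (ZMod q)ˣ) * G χ k := by
  unfold G
  rw [Finset.mul_sum]
  refine Fintype.sum_equiv (Units.mulLeft u) _ _ (fun x => ?_)
  simp only [Units.mulLeft_apply]
  rw [← mul_assoc, ← map_mul]
  congr 2
  · simp
  · ring

lemma norm_G_unit_mul (χ : DirichletCharacter ℂ q) (u : (ZMod q)ˣ) (k : ZMod q) :
    ‖G χ (u * k)‖ = ‖G χ k‖ := by
  rw [G_unit_mul, norm_mul, χ.unit_norm_eq_one, one_mul]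

lemma G_zero {χ : DirichletCharacter ℂ q} (h : χ ≠ 1) : G χ 0 = 0 := by
  unfold G
  simp only [zero_mul, AddChar.map_zero_eq_one, mul_one]
  exact MulChar.sum_eq_zero_of_ne_one h

lemma inversion (χ : DirichletCharacter ℂ q) (y : ZMod q) :
    ∑ k, G χ k * stdAddChar (-(k * y)) = q * χ y := by
  unfold G
  simp_rw [Finset.sum_mul]
  rw [Finset.sum_comm]
  have : ∀ x : ZMod q, ∑ k : ZMod q, χ x * stdAddChar (k * x) * stdAddChar (-(k * y))
      = χ x * (if x - y = 0 then (q : ℂ) else 0) := by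
    intro x
    have h := AddChar.sum_mulShift (x - y) (isPrimitive_stdAddChar q)
    rw [ZMod.card] at h
    push_cast at h
    rw [← h, Finset.mul_sum]
    refine Finset.sum_congr rfl (fun k _ => ?_)
    rw [mul_assoc, ← AddChar.map_add_eq_mul]
    congr 2
    ring
  simp_rw [this]
  rw [Finset.sum_eq_single y]
  · simp [mul_comm]
  · intro b _ hb
    rw [if_neg (sub_ne_zero.mpr hb), mul_zero]
  · simp

lemma conj_stdAddChar (x : ZMod q) : (starRingEnd ℂ) (stdAddChar x) = stdAddChar (-x) := by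
  rw [AddChar.starComp_apply, AddChar.inv_apply]
  rw [ZMod.ringChar_zmod_n]
  exact Nat.pos_of_ne_zero (NeZero.ne q)

lemma parseval (χ : DirichletCharacter ℂ q) :
    ∑ k, ‖G χ k‖ ^ 2 = q * ∑ x, ‖χ x‖ ^ 2 := by
  have key : (∑ k, ((‖G χ k‖ : ℂ)) ^ 2) = q * ∑ x, ((‖χ x‖ : ℂ)) ^ 2 := by
    have h1 : ∀ k, ((‖G χ k‖ : ℂ)) ^ 2 =
        ∑ x, (starRingEnd ℂ) (χ x) * (G χ k * stdAddChar (-(k * x))) := by
      intro k
      rw [← Complex.mul_conj']
      conv_lhs => rw [show (starRingEnd ℂ) (G χ k) =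
        ∑ x, (starRingEnd ℂ) (χ x) * stdAddChar (-(k * x)) by
          unfold G
          rw [map_sum]
          refine Finset.sum_congr rfl (fun x _ => ?_)
          rw [map_mul, conj_stdAddChar]]
      rw [Finset.mul_sum]
      refine Finset.sum_congr rfl (fun x _ => ?_)
      ring
    simp_rw [h1]
    rw [Finset.sum_comm, Finset.mul_sum]
    refine Finset.sum_congr rfl (fun x _ => ?_)
    rw [← Finset.mul_sum, inversion, ← Complex.mul_conj']
    ring
  exact_mod_cast key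

lemma sum_norm_sq (χ : DirichletCharacter ℂ q) :
    ∑ x, ‖χ x‖ ^ 2 = (Fintype.card (ZMod q)ˣ : ℝ) := by
  classical
  have h : ∀ x : ZMod q, ‖χ x‖ ^ 2 = if IsUnit x then (1 : ℝ) else 0 := by
    intro x
    split_ifs with hx
    · obtain ⟨u, rfl⟩ := hx
      rw [χ.unit_norm_eq_one]; norm_num
    · rw [χ.map_nonunit hx]; norm_num
  simp_rw [h]
  rw [Finset.sum_ite, Finset.sum_const_zero, add_zero, Finset.sum_const, nsmul_eq_mul, mul_one]
  norm_cast
  rw [← Finset.card_univ]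
  symm
  refine Finset.card_bij (fun u _ => (u : ZMod q)) ?_ ?_ ?_
  · intro u _
    simp
  · intro u _ v _ huv
    exact Units.ext huv
  · intro x hx
    simp only [Finset.mem_filter, Finset.mem_univ, true_and] at hx
    obtain ⟨u, rfl⟩ := hx
    exact ⟨u, Finset.mem_univ _, rfl⟩

/-- Number of solutions of `x * k = 0`. -/
lemma card_ann_le (k : ZMod q) :
    (Finset.univ.filter (fun x : ZMod q => x * k = 0)).card ≤ Nat.gcd k.val q := by
  classical
  have hg : 0 < Nat.gcd k.val q := Nat.gcd_pos_of_pos_right _ (Nat.pos_of_ne_zero (NeZero.ne q))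
  refine le_trans (Finset.card_le_card ?_)
    (IsAddCyclic.card_nsmul_eq_zero_le (α := ZMod q) hg)
  intro x hx
  simp only [Finset.mem_filter, Finset.mem_univ, true_and] at hx ⊢
  rw [← addOrderOf_dvd_iff_nsmul_eq_zero]
  refine Nat.dvd_gcd ?_ ?_
  · rw [addOrderOf_dvd_iff_nsmul_eq_zero, nsmul_eq_mul, ZMod.natCast_val, ZMod.cast_id', id,
      mul_comm]
    exact hx
  · rw [addOrderOf_dvd_iff_nsmul_eq_zero, nsmul_eq_mul, ZMod.natCast_self, zero_mul]

lemma card_fibre_le (k k' : ZMod q) :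
    (Finset.univ.filter (fun u : (ZMod q)ˣ => (u : ZMod q) * k = k')).card
      ≤ Nat.gcd k.val q := by
  classical
  rcases (Finset.univ.filter (fun u : (ZMod q)ˣ => (u : ZMod q) * k = k')).eq_empty_or_nonempty
    with h | ⟨u0, hu0⟩
  · rw [h]; simp
  · refine le_trans ?_ (card_ann_le k)
    refine Finset.card_le_card_of_injOn (fun u => (u : ZMod q) - u0) ?_ ?_
    · intro u hu
      simp only [Finset.coe_filter, Finset.mem_univ, true_and, Set.mem_ofPred_eq,
        Finset.mem_filter] at hu hu0 ⊢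
      rw [sub_mul, hu, hu0, sub_self]
    · intro u _ v _ huv
      exact Units.ext (by simpa using huv)

lemma norm_G_sq_le (χ : DirichletCharacter ℂ q) (k : ZMod q) :
    ‖G χ k‖ ^ 2 ≤ q * Nat.gcd k.val q := by
  classical
  have h1 : (Fintype.card (ZMod q)ˣ : ℝ) * ‖G χ k‖ ^ 2
      = ∑ u : (ZMod q)ˣ, ‖G χ (u * k)‖ ^ 2 := by
    simp_rw [norm_G_unit_mul]
    rw [Finset.sum_const, Finset.card_univ, nsmul_eq_mul]
  have h2 : ∑ u : (ZMod q)ˣ, ‖G χ (u * k)‖ ^ 2
      = ∑ k' : ZMod q, ((Finset.univ.filter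
          (fun u : (ZMod q)ˣ => (u : ZMod q) * k = k')).card : ℝ) * ‖G χ k'‖ ^ 2 := by
    rw [← Finset.sum_fiberwise_of_maps_to (s := Finset.univ) (t := Finset.univ)
      (g := fun u : (ZMod q)ˣ => (u : ZMod q) * k) (fun _ _ => Finset.mem_univ _)]
    refine Finset.sum_congr rfl (fun k' _ => ?_)
    rw [← nsmul_eq_mul, ← Finset.sum_const]
    refine Finset.sum_congr rfl (fun u hu => ?_)
    rw [(Finset.mem_filter.mp hu).2]
  have h3 : ∑ k' : ZMod q, ((Finset.univ.filter
          (fun u : (ZMod q)ˣ => (u : ZMod q) * k = k')).card : ℝ) * ‖G χ k'‖ ^ 2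
      ≤ ∑ k' : ZMod q, (Nat.gcd k.val q : ℝ) * ‖G χ k'‖ ^ 2 := by
    refine Finset.sum_le_sum (fun k' _ => ?_)
    refine mul_le_mul_of_nonneg_right ?_ (by positivity)
    exact_mod_cast card_fibre_le k k'
  rw [← Finset.mul_sum, parseval, sum_norm_sq] at h3
  have hpos : (0 : ℝ) < (Fintype.card (ZMod q)ˣ : ℝ) := by
    exact_mod_cast Fintype.card_pos
  have h4 : (Fintype.card (ZMod q)ˣ : ℝ) * ‖G χ k‖ ^ 2
      ≤ (Fintype.card (ZMod q)ˣ : ℝ) * (q * Nat.gcd k.val q) := by
    rw [h1, h2]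
    refine h3.trans (le_of_eq (by ring))
  exact le_of_mul_le_mul_left h4 hpos

lemma norm_stdAddChar_sub_one {k : ZMod q} (hk : k ≠ 0) :
    4 / (q : ℝ) * (1 / (k.val : ℝ) + 1 / ((q : ℝ) - k.val))⁻¹ ≤ ‖stdAddChar (-k) - 1‖ := by
  have hq : 0 < q := Nat.pos_of_ne_zero (NeZero.ne q)
  have hj0 : 0 < k.val := Nat.pos_of_ne_zero (by simpa using hk)
  have hjq : k.val < q := ZMod.val_lt k
  set j := k.val with hj
  have hqR : (0 : ℝ) < q := by exact_mod_cast hq
  have hjR : (0 : ℝ) < j := by exact_mod_cast hj0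
  have hjqR : (j : ℝ) < q := by exact_mod_cast hjq
  have e1 : ‖stdAddChar (-k) - 1‖ = ‖stdAddChar k - (1 : ℂ)‖ := by
    rw [← conj_stdAddChar, ← Complex.norm_conj]
    simp
  have e2 : (k : ZMod q) = ((j : ℤ) : ZMod q) := by
    rw [hj]; simp
  have e3 : stdAddChar k = Complex.exp (Complex.I * ((2 * Real.pi * j / q : ℝ) : ℂ)) := by
    rw [e2, stdAddChar_coe]
    congr 1
    push_cast
    ring
  rw [e1, e3, Complex.norm_exp_I_mul_ofReal_sub_one]
  have e4 : 2 * Real.pi * j / q / 2 = Real.pi * j / q := by ring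
  rw [e4]
  have hsin : 2 * (1 / (j : ℝ) + 1 / ((q : ℝ) - j))⁻¹ / q ≤ Real.sin (Real.pi * j / q) := by
    have hpos : 0 < (q : ℝ) - j := by linarith
    have hinv : (1 / (j : ℝ) + 1 / ((q : ℝ) - j))⁻¹ = j * (q - j) / q := by
      field_simp
      ring
    rw [hinv]
    rcases le_total (2 * (j : ℝ)) q with h | h
    · have h1 := Real.mul_le_sin (x := Real.pi * j / q) (by positivity) (by
        rw [div_le_div_iff₀ hqR (by norm_num)]
        nlinarith [Real.pi_pos])
      refine le_trans ?_ h1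
      have : 2 / Real.pi * (Real.pi * j / q) = 2 * j / q := by
        field_simp
      rw [this]
      rw [div_le_div_iff_of_pos_right hqR]
      have : (j : ℝ) * (q - j) / q ≤ j := by
        rw [div_le_iff₀ hqR]
        nlinarith
      linarith
    · have h1 := Real.mul_le_sin (x := Real.pi * (q - j) / q) (by positivity) (by
        rw [div_le_div_iff₀ hqR (by norm_num)]
        nlinarith [Real.pi_pos])
      have h2 : Real.pi * (q - j) / q = Real.pi - Real.pi * j / q := by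
        field_simp
      rw [h2, Real.sin_pi_sub, ← h2] at h1
      refine le_trans ?_ h1
      have : 2 / Real.pi * (Real.pi * (q - j) / q) = 2 * (q - j) / q := by
        field_simp
      rw [this]
      rw [div_le_div_iff_of_pos_right hqR]
      have : (j : ℝ) * (q - j) / q ≤ q - j := by
        rw [div_le_iff₀ hqR]
        nlinarith
      linarith
  rw [Real.norm_eq_abs]
  refine le_trans ?_ (le_abs_self _)
  calc 4 / (q : ℝ) * (1 / (j : ℝ) + 1 / ((q : ℝ) - j))⁻¹
      = 2 * (2 * (1 / (j : ℝ) + 1 / ((q : ℝ) - j))⁻¹ / q) := by ring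
    _ ≤ 2 * Real.sin (Real.pi * j / q) := by linarith

lemma norm_geom_le {k : ZMod q} (hk : k ≠ 0) (M : ℤ) (K : ℕ) :
    ‖∑ i ∈ Finset.range K, stdAddChar (-(k * ((M + i : ℤ) : ZMod q)))‖
      ≤ (q : ℝ) / 2 * (1 / (k.val : ℝ) + 1 / ((q : ℝ) - k.val)) := by
  have hq : 0 < q := Nat.pos_of_ne_zero (NeZero.ne q)
  have hj0 : 0 < k.val := Nat.pos_of_ne_zero (by simpa using hk)
  have hjq : k.val < q := ZMod.val_lt k
  have hqR : (0 : ℝ) < q := by exact_mod_cast hq
  have hjR : (0 : ℝ) < k.val := by exact_mod_cast hj0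
  have hjqR : (k.val : ℝ) < q := by exact_mod_cast hjq
  have hpos : 0 < (q : ℝ) - k.val := by linarith
  set z : ℂ := stdAddChar (-k) with hz
  have hterm : ∀ i ∈ Finset.range K, stdAddChar (-(k * ((M + i : ℤ) : ZMod q)))
      = stdAddChar (-(k * (M : ZMod q))) * z ^ i := by
    intro i _
    rw [hz, ← AddChar.map_nsmul_eq_pow, ← AddChar.map_add_eq_mul]
    congr 1
    push_cast
    rw [nsmul_eq_mul]
    ring
  rw [Finset.sum_congr rfl hterm, ← Finset.mul_sum, norm_mul]
  have hn : ∀ x : ZMod q, ‖(stdAddChar x : ℂ)‖ = 1 := fun x => AddChar.norm_apply _ x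
  rw [hn, one_mul]
  have hlow := norm_stdAddChar_sub_one hk
  rw [← hz] at hlow
  have hs : 0 < 1 / (k.val : ℝ) + 1 / ((q : ℝ) - k.val) := by positivity
  have hzpos : 0 < ‖z - 1‖ := lt_of_lt_of_le (by positivity) hlow
  have hz1 : z ≠ 1 := by
    intro h
    rw [h] at hzpos
    simp at hzpos
  rw [geom_sum_eq hz1, norm_div]
  have hnum : ‖z ^ K - 1‖ ≤ 2 := by
    refine (norm_sub_le _ _).trans ?_
    rw [norm_pow, hz, hn]
    norm_num
  rw [div_le_iff₀ hzpos]
  refine hnum.trans ?_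
  have : (2 : ℝ) = (q : ℝ) / 2 * (1 / (k.val : ℝ) + 1 / ((q : ℝ) - k.val)) *
      (4 / (q : ℝ) * (1 / (k.val : ℝ) + 1 / ((q : ℝ) - k.val))⁻¹) := by
    have hs' := hs.ne'
    field_simp
    norm_num
  calc (2 : ℝ) = (q : ℝ) / 2 * (1 / (k.val : ℝ) + 1 / ((q : ℝ) - k.val)) *
      (4 / (q : ℝ) * (1 / (k.val : ℝ) + 1 / ((q : ℝ) - k.val))⁻¹) := this
    _ ≤ _ := by
      refine mul_le_mul_of_nonneg_left hlow (by positivity)

lemma sum_val (F : ℕ → ℝ) : ∑ k : ZMod q, F k.val = ∑ j ∈ Finset.range q, F j := by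
  refine Finset.sum_nbij ZMod.val ?_ ?_ ?_ ?_
  · intro a _
    simpa using ZMod.val_lt a
  · intro a _ b _ h
    exact ZMod.val_injective q h
  · intro j hj
    have hj' : j < q := by simpa using hj
    exact ⟨(j : ZMod q), by simp, ZMod.val_cast_of_lt hj'⟩
  · intro a _
    rfl

lemma sum_dvd_le {d n : ℕ} (hd : 0 < d) :
    ∑ j ∈ (Finset.Icc 1 n).filter (fun j => d ∣ j), (d : ℝ) / j
      ≤ ∑ j ∈ Finset.Icc 1 n, 1 / (j : ℝ) := by
  have h1 : ∑ j ∈ (Finset.Icc 1 n).filter (fun j => d ∣ j), (d : ℝ) / j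
      = ∑ i ∈ Finset.Icc 1 (n / d), 1 / (i : ℝ) := by
    symm
    refine Finset.sum_nbij (fun i => d * i) ?_ ?_ ?_ ?_
    · intro i hi
      simp only [Finset.mem_Icc, Finset.mem_filter] at hi ⊢
      refine ⟨⟨?_, ?_⟩, dvd_mul_right d i⟩
      · exact Nat.mul_pos hd hi.1
      · calc d * i ≤ d * (n / d) := Nat.mul_le_mul_left d hi.2
          _ ≤ n := Nat.mul_div_le n d
    · intro a _ b _ h
      exact Nat.eq_of_mul_eq_mul_left hd h
    · intro j hj
      simp only [Finset.coe_filter, Finset.mem_Icc, Set.mem_ofPred_eq] at hj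
      obtain ⟨⟨h1, h2⟩, i, rfl⟩ := hj
      refine ⟨i, ?_, rfl⟩
      simp only [Finset.coe_Icc, Set.mem_Icc]
      refine ⟨Nat.pos_of_ne_zero (by rintro rfl; simp at h1), ?_⟩
      rw [Nat.le_div_iff_mul_le hd, mul_comm]
      exact h2
    · intro i hi
      have hi' : (0 : ℝ) < i := by
        simp only [Finset.mem_Icc] at hi
        exact_mod_cast hi.1
      have hd' : (0 : ℝ) < d := by exact_mod_cast hd
      push_cast
      field_simp
  rw [h1]
  refine Finset.sum_le_sum_of_subset_of_nonneg ?_ (fun i _ _ => by positivity)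
  exact Finset.Icc_subset_Icc_right (Nat.div_le_self n d)

lemma sum_inv_le {n : ℕ} : ∑ j ∈ Finset.Icc 1 n, 1 / (j : ℝ) ≤ 1 + Real.log n := by
  have h := harmonic_le_one_add_log n
  rw [harmonic_eq_sum_Icc] at h
  push_cast at h
  simpa using h

lemma sum_gcd_le :
    ∑ j ∈ Finset.Icc 1 (q - 1), Real.sqrt (Nat.gcd j q) / j
      ≤ (Nat.divisors q).card * (1 + Real.log q) := by
  have hq : q ≠ 0 := NeZero.ne q
  have h1 : ∀ j ∈ Finset.Icc 1 (q - 1), Real.sqrt (Nat.gcd j q) / j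
      ≤ ∑ d ∈ Nat.divisors q, if d ∣ j then (d : ℝ) / j else 0 := by
    intro j _
    have hmem : Nat.gcd j q ∈ Nat.divisors q := Nat.mem_divisors.mpr ⟨Nat.gcd_dvd_right j q, hq⟩
    refine le_trans ?_ (Finset.single_le_sum
      (f := fun d : ℕ => if d ∣ j then (d : ℝ) / j else 0) (fun d _ => ?_) hmem)
    · rw [if_pos (Nat.gcd_dvd_left j q)]
      have hpos : 0 < Nat.gcd j q := Nat.gcd_pos_of_pos_right _ (Nat.pos_of_ne_zero hq)
      have h1 : (1 : ℝ) ≤ Nat.gcd j q := by exact_mod_cast hpos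
      refine div_le_div_of_nonneg_right ?_ (by positivity)
      rw [Real.sqrt_le_left (by linarith)]
      nlinarith
    · split_ifs
      · positivity
      · exact le_rfl
  refine (Finset.sum_le_sum h1).trans ?_
  rw [Finset.sum_comm]
  have h2 : ∀ d ∈ Nat.divisors q, ∑ j ∈ Finset.Icc 1 (q - 1), (if d ∣ j then (d : ℝ) / j else 0)
      ≤ 1 + Real.log q := by
    intro d hd
    have hd0 : 0 < d := Nat.pos_of_mem_divisors hd
    rw [← Finset.sum_filter]
    refine (sum_dvd_le hd0).trans (le_trans ?_ sum_inv_le)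
    refine Finset.sum_le_sum_of_subset_of_nonneg ?_ (fun i _ _ => by positivity)
    exact Finset.Icc_subset_Icc_right (Nat.sub_le q 1)
  refine (Finset.sum_le_sum h2).trans ?_
  rw [Finset.sum_const, nsmul_eq_mul]

/-- **Pólya–Vinogradov** for arbitrary nonprincipal characters, with a divisor function loss. -/
theorem polya_vinogradov {χ : DirichletCharacter ℂ q} (h : χ ≠ 1) (M : ℤ) (K : ℕ) :
    ‖∑ i ∈ Finset.range K, χ ((M + i : ℤ) : ZMod q)‖
      ≤ Real.sqrt q * ((Nat.divisors q).card * (1 + Real.log q)) := by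
  have hq : 0 < q := Nat.pos_of_ne_zero (NeZero.ne q)
  have hqR : (0 : ℝ) < q := by exact_mod_cast hq
  have hqC : (q : ℂ) ≠ 0 := by exact_mod_cast hq.ne'
  have e1 : (q : ℂ) * ∑ i ∈ Finset.range K, χ ((M + i : ℤ) : ZMod q)
      = ∑ k, G χ k * ∑ i ∈ Finset.range K, stdAddChar (-(k * ((M + i : ℤ) : ZMod q))) := by
    rw [Finset.mul_sum]
    simp_rw [← inversion]
    rw [Finset.sum_comm]
    simp_rw [Finset.mul_sum]
  have e2 : (q : ℝ) * ‖∑ i ∈ Finset.range K, χ ((M + i : ℤ) : ZMod q)‖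
      ≤ ∑ k : ZMod q, (if k.val = 0 then 0 else Real.sqrt q * Real.sqrt (Nat.gcd k.val q) *
        ((q : ℝ) / 2 * (1 / (k.val : ℝ) + 1 / ((q : ℝ) - k.val)))) := by
    have : (q : ℝ) * ‖∑ i ∈ Finset.range K, χ ((M + i : ℤ) : ZMod q)‖
        = ‖(q : ℂ) * ∑ i ∈ Finset.range K, χ ((M + i : ℤ) : ZMod q)‖ := by
      rw [norm_mul, Complex.norm_natCast]
    rw [this, e1]
    refine (norm_sum_le _ _).trans (Finset.sum_le_sum (fun k _ => ?_))
    split_ifs with hk
    · have : k = 0 := by simpa using hk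
      rw [this, G_zero h]; simp
    · have hk' : k ≠ 0 := by
        intro h0; apply hk; rw [h0]; simp
      rw [norm_mul]
      refine mul_le_mul ?_ (norm_geom_le hk' M K) (norm_nonneg _) (by positivity)
      rw [← Real.sqrt_mul (by positivity)]
      exact Real.le_sqrt_of_sq_le (norm_G_sq_le χ k)
  rw [sum_val (fun j => if j = 0 then 0 else Real.sqrt q * Real.sqrt (Nat.gcd j q) *
        ((q : ℝ) / 2 * (1 / (j : ℝ) + 1 / ((q : ℝ) - j))))] at e2
  have e3 : ∑ j ∈ Finset.range q, (if j = 0 then 0 else Real.sqrt q * Real.sqrt (Nat.gcd j q) *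
        ((q : ℝ) / 2 * (1 / (j : ℝ) + 1 / ((q : ℝ) - j))))
      = ∑ j ∈ Finset.Icc 1 (q - 1), Real.sqrt q * Real.sqrt (Nat.gcd j q) *
        ((q : ℝ) / 2 * (1 / (j : ℝ) + 1 / ((q : ℝ) - j))) := by
    rw [← Finset.sum_filter_add_sum_filter_not (Finset.range q) (fun j => j = 0)]
    rw [Finset.sum_eq_zero (s := (Finset.range q).filter (fun j => j = 0)), zero_add]
    · refine Finset.sum_congr ?_ (fun j hj => ?_)
      · ext j
        simp only [Finset.mem_filter, Finset.mem_range, Finset.mem_Icc]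
        omega
      · simp only [Finset.mem_Icc] at hj
        rw [if_neg (by omega)]
    · intro j hj
      rw [if_pos (Finset.mem_filter.mp hj).2]
  have e4 : ∑ j ∈ Finset.Icc 1 (q - 1), Real.sqrt q * Real.sqrt (Nat.gcd j q) *
        ((q : ℝ) / 2 * (1 / (j : ℝ) + 1 / ((q : ℝ) - j)))
      = q * (Real.sqrt q * ∑ j ∈ Finset.Icc 1 (q - 1), Real.sqrt (Nat.gcd j q) / j) := by
    have hrefl : ∑ j ∈ Finset.Icc 1 (q - 1), Real.sqrt (Nat.gcd j q) / ((q : ℝ) - j)
        = ∑ j ∈ Finset.Icc 1 (q - 1), Real.sqrt (Nat.gcd j q) / j := by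
      refine Finset.sum_nbij (fun j => q - j) ?_ ?_ ?_ ?_
      · intro j hj
        simp only [Finset.mem_Icc] at hj ⊢
        omega
      · intro a ha b hb hab
        simp only [Finset.coe_Icc, Set.mem_Icc] at ha hb
        dsimp only at hab
        omega
      · intro j hj
        simp only [Finset.coe_Icc, Set.mem_Icc] at hj
        refine ⟨q - j, ?_, ?_⟩
        · simp only [Finset.coe_Icc, Set.mem_Icc]
          omega
        · dsimp only
          omega
      · intro j hj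
        simp only [Finset.mem_Icc] at hj
        have hle : j ≤ q := by omega
        rw [Nat.gcd_self_sub_left hle, Nat.cast_sub hle]
    have : ∀ j ∈ Finset.Icc 1 (q - 1), Real.sqrt q * Real.sqrt (Nat.gcd j q) *
        ((q : ℝ) / 2 * (1 / (j : ℝ) + 1 / ((q : ℝ) - j)))
        = (q * Real.sqrt q / 2) * (Real.sqrt (Nat.gcd j q) / j)
          + (q * Real.sqrt q / 2) * (Real.sqrt (Nat.gcd j q) / ((q : ℝ) - j)) := by
      intro j _
      ring
    rw [Finset.sum_congr rfl this, Finset.sum_add_distrib, ← Finset.mul_sum, ← Finset.mul_sum,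
      hrefl]
    ring
  rw [e3, e4] at e2
  have e5 := le_of_mul_le_mul_left e2 hqR
  refine e5.trans ?_
  exact mul_le_mul_of_nonneg_left sum_gcd_le (Real.sqrt_nonneg _)

end

end Pool.Agent.Lib.MP_cb27ba_nt.H71
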