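import Mathlib

/-!
# The Jacobi symbol in the lower variable

For a nonzero integer `n` that is not a square there is an odd `m` with `J(n | m) = -1`, and
`m ↦ J(n | m)` (odd `m`) is a nonprincipal Dirichlet character modulo `4|n|`.
-/

open Finset
open scoped NumberTheorySymbols

namespace Pool.Agent.Lib.MP_cb27ba_nt.H71

lemma odd_of_mod {n m : ℕ} (hm : m % (4 * n) = 1) : Odd m := by
  rw [Nat.odd_iff]
  have h := Nat.mod_mod_of_dvd m (show 2 ∣ 4 * n from ⟨2 * n, by ring⟩)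
  rw [hm] at h
  omega

lemma jac_one_of_mod {a : ℤ} {m : ℕ} (hm : m % (4 * a.natAbs) = 1) : J(a | m) = 1 := by
  rw [jacobiSym.mod_right a (odd_of_mod hm), hm, jacobiSym.one_right]

lemma exists_neg_one_of_odd_prime {r : ℕ} [hr : Fact r.Prime] (hr2 : r ≠ 2) {a : ℤ}
    (ha0 : a ≠ 0) (ha : ¬ (r : ℤ) ∣ a) (i : ℕ) :
    ∃ m : ℕ, Odd m ∧ J((r : ℤ) ^ (2 * i + 1) * a | m) = -1 := by
  obtain ⟨g, hg⟩ := FiniteField.exists_nonsquare (F := ZMod r)
    (by rw [ZMod.ringChar_zmod_n]; exact hr2)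
  have hrodd : Odd r := hr.out.odd_of_ne_two hr2
  have hco : Nat.Coprime (4 * a.natAbs) r := by
    rw [Nat.coprime_comm, Nat.Prime.coprime_iff_not_dvd hr.out, hr.out.dvd_mul]
    rintro (h | h)
    · have h4 : r ∣ 2 ^ 2 := by simpa using h
      have := hr.out.dvd_of_dvd_pow h4
      exact hr2 ((Nat.prime_dvd_prime_iff_eq hr.out Nat.prime_two).mp this)
    · exact ha (Int.natCast_dvd.mpr h)
  obtain ⟨m, hm1, hmg⟩ := Nat.chineseRemainder hco 1 g.val
  have hA : 0 < a.natAbs := Int.natAbs_pos.mpr ha0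
  have hm1' : m % (4 * a.natAbs) = 1 := by
    have h : m % (4 * a.natAbs) = 1 % (4 * a.natAbs) := hm1
    rw [h]
    exact Nat.mod_eq_of_lt (by omega)
  have hodd : Odd m := odd_of_mod hm1'
  refine ⟨m, hodd, ?_⟩
  rw [jacobiSym.mul_left, jac_one_of_mod hm1', mul_one, jacobiSym.pow_left]
  have hm4 : m % 4 = 1 := by
    have h := Nat.mod_mod_of_dvd m (show 4 ∣ 4 * a.natAbs from ⟨a.natAbs, rfl⟩)
    rw [hm1'] at h
    omega
  have h1 : J((r : ℤ) | m) = -1 := by
    rw [← jacobiSym.quadratic_reciprocity_one_mod_four hm4 hrodd]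
    have h2 : J((m : ℤ) | r) = J((g.val : ℤ) | r) := by
      apply jacobiSym.mod_left'
      have : (m : ℤ) ≡ (g.val : ℤ) [ZMOD r] := by
        exact (Int.natCast_modEq_iff).mpr hmg
      exact this
    rw [h2, ← jacobiSym.legendreSym.to_jacobiSym, legendreSym.eq_neg_one_iff]
    simpa using hg
  rw [h1]
  exact Odd.neg_one_pow ⟨i, by ring⟩

lemma chi_eight_neg_two (b : ℕ) (hb : 0 < b) : J(-2 | 8 * b - 1) = -1 := by
  have hodd : Odd (8 * b - 1) := by
    rw [Nat.odd_iff]; omega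
  rw [jacobiSym.at_neg_two hodd, ZMod.χ₈'_nat_eq_if_mod_eight]
  rw [if_neg (by omega), if_neg (by omega)]

lemma chi_neg_one (b : ℕ) (hb : 0 < b) : J(-1 | 8 * b - 1) = -1 := by
  have hodd : Odd (8 * b - 1) := by
    rw [Nat.odd_iff]; omega
  rw [jacobiSym.at_neg_one hodd]
  exact ZMod.χ₄_nat_three_mod_four (by omega)

lemma sq_eq_one_of_coprime {b m : ℕ} (h : Nat.Coprime b m) : J((b : ℤ) ^ 2 | m) = 1 := by
  apply jacobiSym.sq_one'
  simpa [Int.gcd_natCast_natCast] using h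

lemma coprime_eight (b : ℕ) (hb : 0 < b) : Nat.Coprime b (8 * b - 1) := by
  apply Nat.Coprime.symm
  rw [Nat.Coprime, ← Nat.dvd_one]
  have h1 := Nat.gcd_dvd_left (8 * b - 1) b
  have h2 := Nat.gcd_dvd_right (8 * b - 1) b
  have h3 : Nat.gcd (8 * b - 1) b ∣ 8 * b := h2.mul_left 8
  have h4 := Nat.dvd_sub h3 h1
  have h5 : 8 * b - (8 * b - 1) = 1 := by omega
  rwa [h5] at h4

lemma exists_neg_one_two_sq (b : ℕ) (hb : 0 < b) :
    ∃ m : ℕ, Odd m ∧ J(2 * (b : ℤ) ^ 2 | m) = -1 := by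
  obtain ⟨i, c, hc, rfl⟩ := Nat.exists_eq_pow_mul_and_not_dvd hb.ne' 2 (by norm_num)
  have hcodd : c % 2 = 1 := by omega
  have hc0 : 0 < c := by omega
  have hc2 : c ^ 2 % 8 = 1 := by
    have : c % 8 = 1 ∨ c % 8 = 3 ∨ c % 8 = 5 ∨ c % 8 = 7 := by omega
    rcases this with h | h | h | h <;> simp [Nat.pow_mod, h]
  have hc2pos : 0 < c ^ 2 := by positivity
  have hodd : Odd (4 * c ^ 2 - 1) := by
    rw [Nat.odd_iff]; omega
  refine ⟨4 * c ^ 2 - 1, hodd, ?_⟩
  have hcop : Nat.Coprime c (4 * c ^ 2 - 1) := by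
    apply Nat.Coprime.symm
    rw [Nat.Coprime, ← Nat.dvd_one]
    have h1 := Nat.gcd_dvd_left (4 * c ^ 2 - 1) c
    have h2 := Nat.gcd_dvd_right (4 * c ^ 2 - 1) c
    have h3 : Nat.gcd (4 * c ^ 2 - 1) c ∣ 4 * c ^ 2 :=
      Dvd.dvd.mul_left (h2.trans (dvd_pow_self c (by norm_num))) 4
    have h4 := Nat.dvd_sub h3 h1
    have h5 : 4 * c ^ 2 - (4 * c ^ 2 - 1) = 1 := by omega
    rwa [h5] at h4
  have hcop2 : Nat.Coprime (2 ^ i * c) (4 * c ^ 2 - 1) := by
    apply Nat.Coprime.mul_left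
    · apply Nat.Coprime.pow_left
      rw [Nat.coprime_two_left]
      exact hodd
    · exact hcop
  rw [jacobiSym.mul_left, sq_eq_one_of_coprime hcop2, mul_one, jacobiSym.at_two hodd,
    ZMod.χ₈_nat_eq_if_mod_eight]
  rw [if_neg (by omega), if_neg (by omega)]

/-- For a nonzero nonsquare `n` there is an odd `m` with `J(n | m) = -1`. -/
theorem exists_jacobi_neg_one {n : ℤ} (hn : n ≠ 0) (hsq : ¬ IsSquare n) :
    ∃ m : ℕ, Odd m ∧ J(n | m) = -1 := by
  obtain ⟨t, b, hbt, ht⟩ := Nat.sq_mul_squarefree n.natAbs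
  have hA : 0 < n.natAbs := Int.natAbs_pos.mpr hn
  have ht0 : t ≠ 0 := ht.ne_zero
  have hb0 : b ≠ 0 := by
    rintro rfl
    rw [← hbt] at hA
    simp at hA
  have hbpos : 0 < b := Nat.pos_of_ne_zero hb0
  by_cases hodd : ∃ r : ℕ, r.Prime ∧ r ≠ 2 ∧ r ∣ t
  · obtain ⟨r, hr, hr2, t', rfl⟩ := hodd
    have : Fact r.Prime := ⟨hr⟩
    obtain ⟨i, b', hb', rfl⟩ := Nat.exists_eq_pow_mul_and_not_dvd hb0 r hr.ne_one
    have ht' : ¬ r ∣ t' := by
      intro h
      have h2 : r * r ∣ r * t' := Nat.mul_dvd_mul_left r h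
      exact hr.not_isUnit (ht r h2)
    have hb'0 : b' ≠ 0 := by rintro rfl; simp at hb0
    have ht'0 : t' ≠ 0 := by rintro rfl; simp at ht0
    have habs : n = n.sign * n.natAbs := (Int.sign_mul_natAbs n).symm
    have hform : n = (r : ℤ) ^ (2 * i + 1) * (n.sign * ((b' ^ 2 * t' : ℕ) : ℤ)) := by
      rw [← hbt] at habs
      rw [habs]
      conv_rhs => rw [← habs]
      push_cast
      ring
    have ha0 : n.sign * ((b' ^ 2 * t' : ℕ) : ℤ) ≠ 0 := by
      apply mul_ne_zero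
      · exact fun h => hn (Int.sign_eq_zero_iff_zero.mp h)
      · exact_mod_cast mul_ne_zero (pow_ne_zero 2 hb'0) ht'0
    have hdvd : ¬ (r : ℤ) ∣ n.sign * ((b' ^ 2 * t' : ℕ) : ℤ) := by
      intro h
      have h2 : r ∣ (n.sign * ((b' ^ 2 * t' : ℕ) : ℤ)).natAbs := Int.natCast_dvd.mp h
      rw [Int.natAbs_mul, Int.natAbs_sign_of_ne_zero hn, one_mul, Int.natAbs_natCast] at h2
      rcases (hr.dvd_mul).mp h2 with h3 | h3
      · exact hb' (hr.dvd_of_dvd_pow h3)
      · exact ht' h3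
    rw [hform]
    exact exists_neg_one_of_odd_prime hr2 ha0 hdvd i
  · push Not at hodd
    have ht12 : t = 1 ∨ t = 2 := by
      have h1 := Nat.prod_primeFactors_of_squarefree ht
      have h2 : t.primeFactors ⊆ {2} := by
        intro r hr
        simp only [Finset.mem_singleton]
        by_contra h
        exact hodd r (Nat.prime_of_mem_primeFactors hr) h (Nat.dvd_of_mem_primeFactors hr)
      rcases Finset.subset_singleton_iff.mp h2 with h3 | h3
      · left; rw [← h1, h3]; simp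
      · right; rw [← h1, h3]; simp
    rcases Int.natAbs_eq n with hpos | hneg
    · rcases ht12 with rfl | rfl
      · exfalso
        apply hsq
        rw [hpos, ← hbt]
        exact ⟨b, by push_cast; ring⟩
      · have hform : n = 2 * (b : ℤ) ^ 2 := by
          rw [hpos, ← hbt]; push_cast; ring
        rw [hform]
        exact exists_neg_one_two_sq b hbpos
    · have hoddm : Odd (8 * b - 1) := by
        rw [Nat.odd_iff]; omega
      refine ⟨8 * b - 1, hoddm, ?_⟩
      rcases ht12 with rfl | rfl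
      · have hform : n = (-1) * (b : ℤ) ^ 2 := by
          rw [hneg, ← hbt]; push_cast; ring
        rw [hform, jacobiSym.mul_left, chi_neg_one b hbpos,
          sq_eq_one_of_coprime (coprime_eight b hbpos), mul_one]
      · have hform : n = (-2) * (b : ℤ) ^ 2 := by
          rw [hneg, ← hbt]; push_cast; ring
        rw [hform, jacobiSym.mul_left, chi_eight_neg_two b hbpos,
          sq_eq_one_of_coprime (coprime_eight b hbpos), mul_one]

/-- The function `m ↦ J(n | m)` on residues modulo `4|n|`, extended by `0` to even residues. -/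
def jacFun (n : ℤ) (x : ZMod (4 * n.natAbs)) : ℤ := if x.val % 2 = 1 then J(n | x.val) else 0

lemma jacFun_natCast_odd {n : ℤ} {m : ℕ} (hm : Odd m) :
    jacFun n (m : ZMod (4 * n.natAbs)) = J(n | m) := by
  unfold jacFun
  rw [ZMod.val_natCast]
  have h := Nat.mod_mod_of_dvd m (show 2 ∣ 4 * n.natAbs from ⟨2 * n.natAbs, by ring⟩)
  rw [h, if_pos (Nat.odd_iff.mp hm), ← jacobiSym.mod_right n hm]

lemma jacFun_natCast_even {n : ℤ} {m : ℕ} (hm : ¬ Odd m) :
    jacFun n (m : ZMod (4 * n.natAbs)) = 0 := by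
  unfold jacFun
  rw [ZMod.val_natCast]
  have h := Nat.mod_mod_of_dvd m (show 2 ∣ 4 * n.natAbs from ⟨2 * n.natAbs, by ring⟩)
  rw [h, if_neg (fun h' => hm (Nat.odd_iff.mpr h'))]

lemma jacFun_mul {n : ℤ} (hn : n ≠ 0) (x y : ZMod (4 * n.natAbs)) :
    jacFun n (x * y) = jacFun n x * jacFun n y := by
  have : NeZero (4 * n.natAbs) := ⟨by
    have := Int.natAbs_pos.mpr hn
    omega⟩
  have hx : ((x.val : ℕ) : ZMod (4 * n.natAbs)) = x := ZMod.natCast_zmod_val x
  have hy : ((y.val : ℕ) : ZMod (4 * n.natAbs)) = y := ZMod.natCast_zmod_val y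
  have hxy : x * y = ((x.val * y.val : ℕ) : ZMod (4 * n.natAbs)) := by
    push_cast
    rw [hx, hy]
  by_cases h1 : Odd x.val
  · by_cases h2 : Odd y.val
    · rw [hxy, jacFun_natCast_odd (h1.mul h2)]
      conv_rhs => rw [← hx, ← hy]
      rw [jacFun_natCast_odd h1, jacFun_natCast_odd h2]
      have h1' : x.val ≠ 0 := by intro h; rw [h] at h1; simp at h1
      have h2' : y.val ≠ 0 := by intro h; rw [h] at h2; simp at h2
      exact jacobiSym.mul_right' n h1' h2'
    · rw [hxy, jacFun_natCast_even (fun h => h2 (Nat.odd_mul.mp h).2)]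
      conv_rhs => rw [← hy]
      rw [jacFun_natCast_even h2, mul_zero]
  · rw [hxy, jacFun_natCast_even (fun h => h1 (Nat.odd_mul.mp h).1)]
    conv_rhs => rw [← hx]
    rw [jacFun_natCast_even h1, zero_mul]

/-- `m ↦ J(n | m)` as a Dirichlet character modulo `4|n|`. -/
noncomputable def jacChar {n : ℤ} (hn : n ≠ 0) : DirichletCharacter ℂ (4 * n.natAbs) where
  toFun x := (jacFun n x : ℂ)
  map_one' := by
    have h : jacFun n (((1 : ℕ) : ZMod (4 * n.natAbs))) = J(n | 1) :=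
      jacFun_natCast_odd odd_one
    rw [jacobiSym.one_right, Nat.cast_one] at h
    show ((jacFun n 1 : ℤ) : ℂ) = 1
    rw [h]; simp
  map_mul' x y := by
    show ((jacFun n (x * y) : ℤ) : ℂ) = (jacFun n x : ℂ) * (jacFun n y : ℂ)
    rw [jacFun_mul hn]; push_cast; rfl
  map_nonunit' x hx := by
    show ((jacFun n x : ℤ) : ℂ) = 0
    have : NeZero (4 * n.natAbs) := ⟨by
      have := Int.natAbs_pos.mpr hn
      omega⟩
    have hx' : ((x.val : ℕ) : ZMod (4 * n.natAbs)) = x := ZMod.natCast_zmod_val x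
    by_cases h1 : Odd x.val
    · rw [← hx', jacFun_natCast_odd h1]
      rw [← hx', ZMod.isUnit_iff_coprime] at hx
      have h2 : J(n | x.val) = 0 := by
        rw [jacobiSym.eq_zero_iff]
        refine ⟨by intro h; rw [h] at h1; simp at h1, ?_⟩
        intro h
        apply hx
        apply Nat.Coprime.mul_right
        · have : Nat.Coprime x.val (2 ^ 2) := by
            apply Nat.Coprime.pow_right
            rw [Nat.coprime_two_right]
            exact h1
          simpa using this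
        · rw [Nat.coprime_comm]
          rw [Int.gcd, Int.natAbs_natCast] at h
          exact h
      rw [h2]; simp
    · rw [← hx', jacFun_natCast_even h1]; simp

lemma jacChar_natCast_odd {n : ℤ} (hn : n ≠ 0) {m : ℕ} (hm : Odd m) :
    jacChar hn (m : ZMod (4 * n.natAbs)) = (J(n | m) : ℂ) := by
  have h : jacChar hn (m : ZMod (4 * n.natAbs)) = ((jacFun n m : ℤ) : ℂ) := rfl
  rw [h, jacFun_natCast_odd hm]

lemma jacChar_natCast_even {n : ℤ} (hn : n ≠ 0) {m : ℕ} (hm : ¬ Odd m) :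
    jacChar hn (m : ZMod (4 * n.natAbs)) = 0 := by
  have h : jacChar hn (m : ZMod (4 * n.natAbs)) = ((jacFun n m : ℤ) : ℂ) := rfl
  rw [h, jacFun_natCast_even hm]; simp

lemma jacChar_ne_one {n : ℤ} (hn : n ≠ 0) (hsq : ¬ IsSquare n) : jacChar hn ≠ 1 := by
  obtain ⟨m, hm, hJ⟩ := exists_jacobi_neg_one hn hsq
  intro h
  have h1 := jacChar_natCast_odd hn hm
  rw [hJ, h] at h1
  by_cases hu : IsUnit (m : ZMod (4 * n.natAbs))
  · rw [MulChar.one_apply hu] at h1
    norm_num at h1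
  · rw [MulChar.map_nonunit _ hu] at h1
    norm_num at h1

end Pool.Agent.Lib.MP_cb27ba_nt.H71
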