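import Mathlib
import Pool.Agent.Lib.MP_cb27ba_nt.H71.PV
import Pool.Agent.Lib.MP_cb27ba_nt.H71.LS

/-!
# Large sieve for one nonprincipal character modulo each prime
-/

open Finset ZMod

namespace Pool.Agent.Lib.MP_cb27ba_nt.H71

lemma F_eq_stdAddChar (c : ℤ → ℂ) (S : Finset ℤ) {p : ℕ} [NeZero p] (a : ℕ) :
    F c S ((a : ℝ) / p) = ∑ n ∈ S, c n * stdAddChar ((a : ZMod p) * ((n : ℤ) : ZMod p)) := by
  unfold F
  refine Finset.sum_congr rfl (fun n _ => ?_)
  congr 1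
  have h : (a : ZMod p) * ((n : ℤ) : ZMod p) = (((a : ℤ) * n : ℤ) : ZMod p) := by
    push_cast
    rfl
  rw [h, stdAddChar_coe]
  congr 1
  push_cast
  ring

/-- A nonprincipal character sum modulo `p` is controlled by the values of the trigonometric
polynomial at the fractions `a / p`, `0 < a < p`. -/
lemma char_le {p : ℕ} (hp : p.Prime) {χ : DirichletCharacter ℂ p} (hχ : χ ≠ 1)
    (c : ℤ → ℂ) (S : Finset ℤ) :
    ‖∑ n ∈ S, c n * χ ((n : ℤ) : ZMod p)‖ ^ 2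
      ≤ ∑ a ∈ Finset.Ico 1 p, ‖F c S ((a : ℝ) / p)‖ ^ 2 := by
  have : Fact p.Prime := ⟨hp⟩
  have : NeZero p := ⟨hp.ne_zero⟩
  have hpR : (0 : ℝ) < p := by exact_mod_cast hp.pos
  -- expand the character
  have e1 : (p : ℂ) * ∑ n ∈ S, c n * χ ((n : ℤ) : ZMod p)
      = ∑ k : ZMod p, G χ k * ∑ n ∈ S, c n * stdAddChar (-k * ((n : ℤ) : ZMod p)) := by
    rw [Finset.mul_sum]
    have : ∀ n ∈ S, (p : ℂ) * (c n * χ ((n : ℤ) : ZMod p))
        = ∑ k : ZMod p, c n * (G χ k * stdAddChar (-(k * ((n : ℤ) : ZMod p)))) := by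
      intro n _
      rw [← Finset.mul_sum, inversion]
      ring
    rw [Finset.sum_congr rfl this, Finset.sum_comm]
    refine Finset.sum_congr rfl (fun k _ => ?_)
    rw [Finset.mul_sum]
    refine Finset.sum_congr rfl (fun n _ => ?_)
    rw [neg_mul]
    ring
  -- norms of Gauss sums
  have hG : ∀ k : ZMod p, ‖G χ k‖ ≤ Real.sqrt p := by
    intro k
    apply Real.le_sqrt_of_sq_le
    by_cases hk : k = 0
    · rw [hk, G_zero hχ]
      simp
    · refine (norm_G_sq_le χ k).trans (le_of_eq ?_)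
      have h1 : Nat.gcd k.val p = 1 := by
        have h2 : 0 < k.val := Nat.pos_of_ne_zero (by simpa using hk)
        have h3 : k.val < p := ZMod.val_lt k
        exact Nat.Coprime.symm (Nat.coprime_of_lt_prime (by omega) h3 hp)
      rw [h1]
      simp
  set g : ZMod p → ℝ := fun k => ‖∑ n ∈ S, c n * stdAddChar (-k * ((n : ℤ) : ZMod p))‖ with hg
  have e2 : (p : ℝ) * ‖∑ n ∈ S, c n * χ ((n : ℤ) : ZMod p)‖
      ≤ Real.sqrt p * ∑ k ∈ (Finset.univ : Finset (ZMod p)).erase 0, g k := by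
    have h1 : (p : ℝ) * ‖∑ n ∈ S, c n * χ ((n : ℤ) : ZMod p)‖
        = ‖(p : ℂ) * ∑ n ∈ S, c n * χ ((n : ℤ) : ZMod p)‖ := by
      rw [norm_mul, Complex.norm_natCast]
    rw [h1, e1, ← Finset.add_sum_erase _ _ (Finset.mem_univ (0 : ZMod p)), G_zero hχ, zero_mul,
      zero_add, Finset.mul_sum]
    refine (norm_sum_le _ _).trans (Finset.sum_le_sum (fun k _ => ?_))
    rw [norm_mul]
    exact mul_le_mul_of_nonneg_right (hG k) (norm_nonneg _)
  have e3 : (∑ k ∈ (Finset.univ : Finset (ZMod p)).erase 0, g k) ^ 2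
      ≤ (p : ℝ) * ∑ k ∈ (Finset.univ : Finset (ZMod p)).erase 0, g k ^ 2 := by
    refine (sq_sum_le_card_mul_sum_sq).trans ?_
    refine mul_le_mul_of_nonneg_right ?_ (by positivity)
    rw [Finset.card_erase_of_mem (Finset.mem_univ _), Finset.card_univ, ZMod.card]
    exact_mod_cast Nat.sub_le p 1
  have e4 : ∑ k ∈ (Finset.univ : Finset (ZMod p)).erase 0, g k ^ 2
      = ∑ a ∈ Finset.Ico 1 p, ‖F c S ((a : ℝ) / p)‖ ^ 2 := by
    symm
    refine Finset.sum_nbij' (fun a : ℕ => -(a : ZMod p)) (fun k => (-k).val) ?_ ?_ ?_ ?_ ?_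
    · intro a ha
      rw [Finset.mem_Ico] at ha
      simp only [Finset.mem_erase, Finset.mem_univ, and_true, ne_eq, neg_eq_zero]
      rw [ZMod.natCast_eq_zero_iff]
      intro h
      have := Nat.le_of_dvd (by omega) h
      omega
    · intro k hk
      simp only [Finset.mem_erase, Finset.mem_univ, and_true, ne_eq] at hk
      rw [Finset.mem_Ico]
      refine ⟨Nat.pos_of_ne_zero ?_, ZMod.val_lt _⟩
      intro h
      rw [ZMod.val_eq_zero, neg_eq_zero] at h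
      exact hk h
    · intro a ha
      rw [Finset.mem_Ico] at ha
      rw [neg_neg]
      exact ZMod.val_cast_of_lt ha.2
    · intro k _
      rw [ZMod.natCast_val, ZMod.cast_id', id, neg_neg]
    · intro a _
      rw [F_eq_stdAddChar, hg]
      simp only [neg_neg]
  rw [← e4]
  have h5 : ((p : ℝ) * ‖∑ n ∈ S, c n * χ ((n : ℤ) : ZMod p)‖) ^ 2
      ≤ (Real.sqrt p * ∑ k ∈ (Finset.univ : Finset (ZMod p)).erase 0, g k) ^ 2 :=
    pow_le_pow_left₀ (by positivity) e2 2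
  have h6 : (Real.sqrt p * ∑ k ∈ (Finset.univ : Finset (ZMod p)).erase 0, g k) ^ 2
      ≤ (p : ℝ) ^ 2 * ∑ k ∈ (Finset.univ : Finset (ZMod p)).erase 0, g k ^ 2 := by
    rw [mul_pow, Real.sq_sqrt hpR.le, sq (p : ℝ), mul_assoc]
    exact mul_le_mul_of_nonneg_left e3 hpR.le
  have h7 := h5.trans h6
  rw [mul_pow] at h7
  exact le_of_mul_le_mul_left h7 (by positivity)

/-- Distinct fractions `a / p`, `a' / p'` with prime denominators are separated. -/
lemma frac_sep {p p' a a' : ℕ} (hp : p.Prime) (hp' : p'.Prime) (ha : a ∈ Finset.Ico 1 p)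
    (ha' : a' ∈ Finset.Ico 1 p') (hne : (p, a) ≠ (p', a')) :
    (1 : ℝ) / (p * p') ≤ |(a : ℝ) / p - (a' : ℝ) / p'| := by
  rw [Finset.mem_Ico] at ha ha'
  have hpR : (0 : ℝ) < p := by exact_mod_cast hp.pos
  have hpR' : (0 : ℝ) < p' := by exact_mod_cast hp'.pos
  have h1 : (a : ℤ) * p' - a' * p ≠ 0 := by
    intro h
    have h2 : a * p' = a' * p := by
      have : (a : ℤ) * p' = a' * p := by linarith
      exact_mod_cast this
    by_cases hpp : p = p'
    · subst hpp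
      have := Nat.eq_of_mul_eq_mul_right hp.pos h2
      exact hne (by rw [this])
    · have h3 : p ∣ a * p' := by rw [h2]; exact dvd_mul_left p a'
      rcases (hp.dvd_mul).mp h3 with h4 | h4
      · have := Nat.le_of_dvd (by omega) h4
        omega
      · exact hpp ((Nat.prime_dvd_prime_iff_eq hp hp').mp h4)
  have h2 : (1 : ℝ) ≤ |(a : ℝ) * p' - a' * p| := by
    have := Int.one_le_abs h1
    exact_mod_cast this
  have h3 : (a : ℝ) / p - (a' : ℝ) / p' = ((a : ℝ) * p' - a' * p) / (p * p') := by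
    field_simp
  rw [h3, abs_div, abs_of_pos (show (0 : ℝ) < p * p' by positivity)]
  exact div_le_div_of_nonneg_right h2 (by positivity)

/-- **Large sieve**: one nonprincipal character for each prime of a set `X ⊆ [P, 2P]`. -/
theorem large_sieve_char {P : ℕ} (hP : 1 ≤ P) (X : Finset ℕ)
    (hX : ∀ p ∈ X, p.Prime ∧ P ≤ p ∧ p ≤ 2 * P) (c : ℤ → ℂ) (S : Finset ℤ) {N : ℝ} (hN : 0 < N)
    (hS : ∀ n ∈ S, |(n : ℝ)| ≤ N) (T : ℝ)
    (hT : ∀ p ∈ X, ∃ χ : DirichletCharacter ℂ p, χ ≠ 1 ∧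
      T ≤ ‖∑ n ∈ S, c n * χ ((n : ℤ) : ZMod p)‖ ^ 2) :
    X.card * T ≤ (4 * (P : ℝ) ^ 2 + 4 * Real.pi * N) * ∑ n ∈ S, ‖c n‖ ^ 2 := by
  have hPR : (1 : ℝ) ≤ P := by exact_mod_cast hP
  have h1 : (X.card : ℝ) * T ≤ ∑ p ∈ X, ∑ a ∈ Finset.Ico 1 p, ‖F c S ((a : ℝ) / p)‖ ^ 2 := by
    rw [← nsmul_eq_mul, ← Finset.sum_const]
    refine Finset.sum_le_sum (fun p hp => ?_)
    obtain ⟨χ, hχ, h⟩ := hT p hp
    exact h.trans (char_le (hX p hp).1 hχ c S)
  refine h1.trans ?_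
  rw [Finset.sum_sigma']
  have h2 := large_sieve c S hN hS (X.sigma (fun p => Finset.Ico 1 p))
    (fun r => (r.2 : ℝ) / r.1) (δ := 1 / (4 * (P : ℝ) ^ 2)) (by positivity) ?_ ?_
  · refine h2.trans (le_of_eq ?_)
    rw [one_div_one_div]
  · intro r hr s hs hrs
    rw [Finset.mem_sigma] at hr hs
    have h3 := frac_sep (hX _ hr.1).1 (hX _ hs.1).1 hr.2 hs.2 (by
      intro h
      apply hrs
      have h4 := congrArg Prod.fst h
      have h5 := congrArg Prod.snd h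
      dsimp only at h4 h5
      exact Sigma.ext h4 (heq_of_eq h5))
    refine le_trans ?_ h3
    have p1 : (0 : ℝ) < r.1 := by exact_mod_cast (hX _ hr.1).1.pos
    have p2 : (0 : ℝ) < s.1 := by exact_mod_cast (hX _ hs.1).1.pos
    apply one_div_le_one_div_of_le (by positivity)
    have i1 : (r.1 : ℝ) ≤ 2 * P := by exact_mod_cast (hX _ hr.1).2.2
    have i2 : (s.1 : ℝ) ≤ 2 * P := by exact_mod_cast (hX _ hs.1).2.2
    calc (r.1 : ℝ) * s.1 ≤ (2 * P) * (2 * P) := mul_le_mul i1 i2 p2.le (by positivity)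
      _ = 4 * (P : ℝ) ^ 2 := by ring
  · intro r hr
    rw [Finset.mem_sigma, Finset.mem_Ico] at hr
    have p1 : (0 : ℝ) < r.1 := by exact_mod_cast (hX _ hr.1).1.pos
    have i1 : (r.1 : ℝ) ≤ 2 * P := by exact_mod_cast (hX _ hr.1).2.2
    have i2 : (1 : ℝ) ≤ r.2 := by exact_mod_cast hr.2.1
    have i3 : (r.2 : ℝ) + 1 ≤ r.1 := by exact_mod_cast hr.2.2
    have hd : 1 / (4 * (P : ℝ) ^ 2) / 2 ≤ 1 / r.1 := by
      have : 1 / (4 * (P : ℝ) ^ 2) / 2 = 1 / (8 * (P : ℝ) ^ 2) := by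
        field_simp
        norm_num
      rw [this]
      apply one_div_le_one_div_of_le p1
      nlinarith
    have hd2 : 1 / (r.1 : ℝ) ≤ (r.2 : ℝ) / r.1 := div_le_div_of_nonneg_right i2 p1.le
    have hd3 : (r.2 : ℝ) / r.1 ≤ 1 - 1 / r.1 := by
      rw [div_le_iff₀ p1, sub_mul, one_mul, one_div, inv_mul_cancel₀ p1.ne']
      linarith
    constructor
    · linarith
    · linarith

end Pool.Agent.Lib.MP_cb27ba_nt.H71
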